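import Pool.Agent.H81.WFa.Coe
import Pool.Agent.H11.Selberg.Defs

/-!
# Module Ent: an element of the Selberg class with rapidly decreasing coefficients is equal to its Dirichlet series
-/

set_option autoImplicit false

open Filter Topology Complex

namespace Pool.Agent.H81.WFa

open Pool.Agent.H11.Selberg

theorem eq_L {a : ℕ → ℂ} {F : ℂ → ℂ} (h : IsSelberg a F)
    (hd : ∀ k : ℕ, ∃ C : ℝ, ∀ n : ℕ, 1 ≤ n → ‖a n‖ ≤ C * (n : ℝ) ^ (-(k : ℝ))) {s : ℂ} (hs : s ≠ 1) : F s = LSeries a s := by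
  obtain ⟨m, G, hG, -, hGF⟩ := h.continuation
  have h1 : Differentiable ℂ fun s => (s - 1) ^ m * LSeries a s := ((differentiable_id.sub_const 1).pow m).mul (all_diff hd)
  have h2 : G = fun s => (s - 1) ^ m * LSeries a s := by
    refine AnalyticOnNhd.eq_of_eventuallyEq (𝕜 := ℂ) (z₀ := 2) (fun z _ => hG.analyticAt z) (fun z _ => h1.analyticAt z) ?_
    have h3 : {z : ℂ | 1 < z.re} ∈ 𝓝 (2 : ℂ) := (isOpen_lt continuous_const continuous_re).mem_nhds (by simp)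
    filter_upwards [h3] with z hz
    have hz1 : z ≠ 1 := by
      rintro rfl
      simp at hz
    rw [hGF z hz1, h.eq_LSeries z hz]
  have h3 := hGF s hs
  rw [h2] at h3
  have h4 : (s - 1) ^ m ≠ 0 := pow_ne_zero _ (sub_ne_zero.2 hs)
  exact (mul_left_cancel₀ h4 h3).symm

/-- growth at `Re s = -1` is impossible -/
theorem no_growth {a : ℕ → ℂ} {F : ℂ → ℂ} (h : IsSelberg a F)
    (hd : ∀ k : ℕ, ∃ C : ℝ, ∀ n : ℕ, 1 ≤ n → ‖a n‖ ≤ C * (n : ℝ) ^ (-(k : ℝ))) {c T e : ℝ} (hc : 0 < c) (he : 0 < e)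
    (hg : ∀ t : ℝ, T ≤ |t| → c * |t| ^ e ≤ ‖F (-((1 : ℝ) : ℂ) + t * I)‖) : False := by
  have h1 : Tendsto (fun t : ℝ => c * t ^ e) atTop atTop := (tendsto_rpow_atTop he).const_mul_atTop hc
  obtain ⟨t, ht, ht1, ht2⟩ := ((h1.eventually_gt_atTop (∑' n, ‖LSeries.term a ((-1 : ℝ) : ℂ) n‖)).and
    ((eventually_ge_atTop T).and (eventually_ge_atTop 0))).exists
  have h2 := hg t (by rwa [abs_of_nonneg ht2])
  rw [abs_of_nonneg ht2] at h2
  have hne : -((1 : ℝ) : ℂ) + t * I ≠ 1 := by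
    intro h3
    have := congrArg re h3
    simp at this
    norm_num at this
  rw [eq_L h hd hne] at h2
  have h3 := norm_le_re hd (x := -1) (s := -((1 : ℝ) : ℂ) + t * I) (by simp)
  exact absurd (ht.trans_le (h2.trans h3)) (lt_irrefl _)

end Pool.Agent.H81.WFa
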