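import Pool.Agent.H81.WFa.Mv

/-!
# Module Coe: Dirichlet series with rapidly decreasing coefficients

`coef_le`: `‖a n‖ n^(-x) ≤ sup_t ‖L(x + i t)‖`. `all_sum`, `all_diff`: if `‖a n‖ ≤ C n^(-k)` for all `k` the series converges everywhere.
-/

set_option autoImplicit false

open Filter Topology MeasureTheory Complex

namespace Pool.Agent.H81.WFa

theorem term_vert (a : ℕ → ℂ) (x t : ℝ) (n : ℕ) : LSeries.term a (x + t * I) n = LSeries.term a x n * exp (-(I * (Real.log n : ℝ) * t)) := by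
  rcases eq_or_ne n 0 with rfl | hn
  · simp
  · rw [LSeries.term_of_ne_zero hn, LSeries.term_of_ne_zero hn]
    have hn' : (n : ℂ) ≠ 0 := by exact_mod_cast hn
    have h1 : (n : ℂ) ^ ((x : ℂ) + t * I) = (n : ℂ) ^ (x : ℂ) * exp (I * (Real.log n : ℝ) * t) := by
      rw [cpow_add _ _ hn', cpow_def_of_ne_zero hn' (t * I), ← natCast_log]
      congr 2
      push_cast
      ring
    rw [h1, exp_neg, div_mul_eq_div_div]
    rfl

theorem coef_le (a : ℕ → ℂ) (x : ℝ) (hs : LSeriesSummable a x) {K : ℝ} (hK : ∀ t : ℝ, ‖LSeries a (x + t * I)‖ ≤ K) {m : ℕ} (hm : m ≠ 0) :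
    ‖a m‖ ≤ K * (m : ℝ) ^ x := by
  have h1 := mv (c := fun n => LSeries.term a x n) (ω := fun n => Real.log n) hs.norm (K := K) (fun t => ?_) (m := m) (fun n hnm hn he => ?_)
  · rw [LSeries.norm_term_eq, if_neg hm, ofReal_re] at h1
    have h2 : (0 : ℝ) < (m : ℝ) ^ x := Real.rpow_pos_of_pos (by exact_mod_cast Nat.pos_of_ne_zero hm) x
    rwa [div_le_iff₀ h2] at h1
  · have h3 := hK t
    rw [LSeries] at h3
    refine le_of_eq_of_le ?_ h3
    congr 1
    exact tsum_congr fun n => (term_vert a x t n).symm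
  · have hn0 : n ≠ 0 := by
      rintro rfl
      exact hn (by simp)
    have h4 := Real.log_injOn_pos (Set.mem_Ioi.2 (by exact_mod_cast Nat.pos_of_ne_zero hn0 : (0 : ℝ) < n))
      (Set.mem_Ioi.2 (by exact_mod_cast Nat.pos_of_ne_zero hm : (0 : ℝ) < m)) he
    exact hnm (by exact_mod_cast h4)

theorem all_sum {a : ℕ → ℂ} (hd : ∀ k : ℕ, ∃ C : ℝ, ∀ n : ℕ, 1 ≤ n → ‖a n‖ ≤ C * (n : ℝ) ^ (-(k : ℝ))) (s : ℂ) : LSeriesSummable a s := by
  obtain ⟨k, hk⟩ := exists_nat_gt (1 - s.re)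
  obtain ⟨C, hC⟩ := hd k
  refine LSeriesSummable_of_le_const_mul_rpow (x := 1 - k) (by linarith) ⟨C, fun n hn => ?_⟩
  have h1 := hC n (Nat.pos_of_ne_zero hn)
  rwa [show (1 : ℝ) - k - 1 = -(k : ℝ) by ring]

theorem all_absc {a : ℕ → ℂ} (hd : ∀ k : ℕ, ∃ C : ℝ, ∀ n : ℕ, 1 ≤ n → ‖a n‖ ≤ C * (n : ℝ) ^ (-(k : ℝ))) (s : ℂ) :
    LSeries.abscissaOfAbsConv a < s.re := by
  have h1 := (all_sum hd (s - 1)).abscissaOfAbsConv_le
  refine h1.trans_lt ?_
  rw [EReal.coe_lt_coe_iff]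
  simp

theorem all_diff {a : ℕ → ℂ} (hd : ∀ k : ℕ, ∃ C : ℝ, ∀ n : ℕ, 1 ≤ n → ‖a n‖ ≤ C * (n : ℝ) ^ (-(k : ℝ))) : Differentiable ℂ (LSeries a) :=
  fun s => (LSeries_hasDerivAt (all_absc hd s)).differentiableAt

/-- the bound of the series on vertical lines -/
theorem norm_le_re {a : ℕ → ℂ} (hd : ∀ k : ℕ, ∃ C : ℝ, ∀ n : ℕ, 1 ≤ n → ‖a n‖ ≤ C * (n : ℝ) ^ (-(k : ℝ))) {x : ℝ} {s : ℂ} (hs : x ≤ s.re) :
    ‖LSeries a s‖ ≤ ∑' n, ‖LSeries.term a x n‖ := by
  have h1 : ∀ n, ‖LSeries.term a s n‖ ≤ ‖LSeries.term a x n‖ := fun n =>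
    LSeries.norm_term_le_of_re_le_re a (by simpa using hs) n
  have h2 : Summable fun n => ‖LSeries.term a s n‖ := (all_sum hd s).norm
  exact (norm_tsum_le_tsum_norm h2).trans (h2.tsum_le_tsum h1 (all_sum hd x).norm)

/-- the first coefficient is the limit at `+∞` -/
theorem lim_one {a : ℕ → ℂ} (hd : ∀ k : ℕ, ∃ C : ℝ, ∀ n : ℕ, 1 ≤ n → ‖a n‖ ≤ C * (n : ℝ) ^ (-(k : ℝ))) :
    Tendsto (fun x : ℝ => LSeries a x) atTop (𝓝 (a 1)) := by
  have h1 : Tendsto (fun x : ℝ => LSeries a x) atTop (𝓝 (∑' n, if n = 1 then a 1 else 0)) := by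
    unfold LSeries
    refine tendsto_tsum_of_dominated_convergence (bound := fun n => ‖LSeries.term a 0 n‖) (all_sum hd 0).norm (fun n => ?_) ?_
    · split_ifs with hn
      · subst hn
        simp [LSeries.term]
      · rcases eq_or_ne n 0 with rfl | h0
        · simp
        · have h2 : 1 < n := by omega
          have h3 : Tendsto (fun x : ℝ => (n : ℝ) ^ (-x)) atTop (𝓝 0) := by
            have h4 := tendsto_rpow_atTop_of_base_lt_one ((n : ℝ)⁻¹) (by
              have : (0 : ℝ) < (n : ℝ)⁻¹ := by positivity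
              linarith) (inv_lt_one_of_one_lt₀ (by exact_mod_cast h2))
            refine h4.congr fun x => ?_
            rw [Real.inv_rpow (Nat.cast_nonneg n), Real.rpow_neg (Nat.cast_nonneg n)]
          refine squeeze_zero_norm (a := fun x : ℝ => ‖a n‖ * (n : ℝ) ^ (-x)) (fun x => ?_) (by simpa using h3.const_mul ‖a n‖)
          rw [LSeries.norm_term_eq, if_neg h0, ofReal_re, Real.rpow_neg (Nat.cast_nonneg n), div_eq_mul_inv]
    · filter_upwards [eventually_ge_atTop 0] with x hx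
      intro n
      exact LSeries.norm_term_le_of_re_le_re a (by simpa using hx) n
  rwa [tsum_ite_eq] at h1

end Pool.Agent.H81.WFa
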