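import Mathlib

/-!
# Module Mv: a coefficient of an absolutely convergent trigonometric series is bounded by the supremum

`mv`: `‖c m‖ ≤ sup ‖∑ c n exp (-i ω_n t)‖` if the frequencies of the other terms are different from `ω_m` (mean value over `[0, T]`, `T → ∞`).
-/

set_option autoImplicit false

open Filter Topology MeasureTheory Complex

namespace Pool.Agent.H81.WFa

theorem avg_le {δ T : ℝ} (hT : 0 < T) : ‖((T : ℂ))⁻¹ * ∫ t in (0 : ℝ)..T, exp (I * δ * t)‖ ≤ 1 := by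
  have h1 : ‖∫ t in (0 : ℝ)..T, exp (I * δ * t)‖ ≤ 1 * |T - 0| := by
    refine intervalIntegral.norm_integral_le_of_norm_le_const fun t _ => ?_
    rw [show I * (δ : ℂ) * (t : ℂ) = ((δ * t : ℝ) : ℂ) * I by push_cast; ring, norm_exp_ofReal_mul_I]
  rw [sub_zero, abs_of_pos hT, one_mul] at h1
  rw [norm_mul, norm_inv, norm_real, Real.norm_eq_abs, abs_of_pos hT]
  calc T⁻¹ * ‖∫ t in (0 : ℝ)..T, exp (I * δ * t)‖ ≤ T⁻¹ * T := mul_le_mul_of_nonneg_left h1 (by positivity)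
    _ = 1 := inv_mul_cancel₀ hT.ne'

theorem avg_lim {δ : ℝ} (hδ : δ ≠ 0) : Tendsto (fun T : ℝ => ((T : ℂ))⁻¹ * ∫ t in (0 : ℝ)..T, exp (I * δ * t)) atTop (𝓝 0) := by
  have hne : I * (δ : ℂ) ≠ 0 := mul_ne_zero I_ne_zero (by exact_mod_cast hδ)
  have h1 : ∀ T : ℝ, ‖((T : ℂ))⁻¹ * ∫ t in (0 : ℝ)..T, exp (I * δ * t)‖ ≤ 2 / |δ| * |T|⁻¹ := by
    intro T
    rw [integral_exp_mul_complex hne, norm_mul, norm_inv, norm_real, Real.norm_eq_abs, norm_div, norm_mul, norm_I, one_mul, norm_real,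
      Real.norm_eq_abs]
    have h2 : ‖exp (I * δ * (T : ℂ)) - exp (I * δ * ((0 : ℝ) : ℂ))‖ ≤ 2 := by
      refine (norm_sub_le _ _).trans ?_
      rw [show I * (δ : ℂ) * (T : ℂ) = ((δ * T : ℝ) : ℂ) * I by push_cast; ring, norm_exp_ofReal_mul_I]
      simp
      norm_num
    have h3 : 0 < |δ| := abs_pos.2 hδ
    calc |T|⁻¹ * (‖exp (I * δ * (T : ℂ)) - exp (I * δ * ((0 : ℝ) : ℂ))‖ / |δ|) ≤ |T|⁻¹ * (2 / |δ|) := by gcongr
      _ = 2 / |δ| * |T|⁻¹ := by ring
  refine squeeze_zero_norm h1 ?_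
  have h2 : Tendsto (fun T : ℝ => |T|⁻¹) atTop (𝓝 0) := tendsto_inv_atTop_zero.comp tendsto_abs_atTop_atTop
  simpa using h2.const_mul (2 / |δ|)

theorem mv {c : ℕ → ℂ} {ω : ℕ → ℝ} (hs : Summable fun n => ‖c n‖) {K : ℝ}
    (hK : ∀ t : ℝ, ‖∑' n, c n * exp (-(I * ω n * t))‖ ≤ K) {m : ℕ} (hm : ∀ n, n ≠ m → c n ≠ 0 → ω n ≠ ω m) : ‖c m‖ ≤ K := by
  have hn1 : ∀ (a : ℝ) (t : ℝ), ‖exp (I * a * t)‖ = 1 := fun a t => by
    rw [show I * (a : ℂ) * (t : ℂ) = ((a * t : ℝ) : ℂ) * I by push_cast; ring, norm_exp_ofReal_mul_I]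
  have hn2 : ∀ (a : ℝ) (t : ℝ), ‖exp (-(I * a * t))‖ = 1 := fun a t => by
    rw [show -(I * (a : ℂ) * (t : ℂ)) = ((-(a * t) : ℝ) : ℂ) * I by push_cast; ring, norm_exp_ofReal_mul_I]
  -- the integrals
  have h1 : ∀ T : ℝ, HasSum (fun n => ∫ t in (0 : ℝ)..T, c n * exp (I * ((ω m - ω n : ℝ) : ℂ) * t))
      (∫ t in (0 : ℝ)..T, (∑' n, c n * exp (-(I * ω n * t))) * exp (I * ω m * t)) := by
    intro T
    refine intervalIntegral.hasSum_integral_of_dominated_convergence (fun n _ => ‖c n‖) (fun n => ?_) (fun n => ?_) ?_ ?_ ?_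
    · exact (by fun_prop : Continuous fun t : ℝ => c n * exp (I * ((ω m - ω n : ℝ) : ℂ) * t)).aestronglyMeasurable
    · refine Eventually.of_forall fun t _ => ?_
      rw [norm_mul, hn1, mul_one]
    · exact Eventually.of_forall fun t _ => hs
    · exact intervalIntegrable_const
    · refine Eventually.of_forall fun t _ => ?_
      have h2 : Summable fun n => c n * exp (-(I * ω n * t)) :=
        Summable.of_norm_bounded hs fun n => by rw [norm_mul, hn2, mul_one]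
      refine (h2.hasSum.mul_right (exp (I * ω m * t))).congr_fun ?_
      intro n
      rw [mul_assoc (c n), ← exp_add]
      congr 2
      push_cast
      ring
  have h2 : ∀ T : ℝ, 0 < T → ‖∑' n, c n * (((T : ℂ))⁻¹ * ∫ t in (0 : ℝ)..T, exp (I * ((ω m - ω n : ℝ) : ℂ) * t))‖ ≤ K := by
    intro T hT
    have h3 : ∑' n, c n * (((T : ℂ))⁻¹ * ∫ t in (0 : ℝ)..T, exp (I * ((ω m - ω n : ℝ) : ℂ) * t)) =
        ((T : ℂ))⁻¹ * ∫ t in (0 : ℝ)..T, (∑' n, c n * exp (-(I * ω n * t))) * exp (I * ω m * t) := by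
      rw [← (h1 T).tsum_eq, ← tsum_mul_left]
      refine tsum_congr fun n => ?_
      rw [intervalIntegral.integral_const_mul]
      ring
    have hK0 : 0 ≤ K := (norm_nonneg _).trans (hK 0)
    have h4 : ‖∫ t in (0 : ℝ)..T, (∑' n, c n * exp (-(I * ω n * t))) * exp (I * ω m * t)‖ ≤ K * |T - 0| := by
      refine intervalIntegral.norm_integral_le_of_norm_le_const fun t _ => ?_
      rw [norm_mul, hn1, mul_one]
      exact hK t
    rw [sub_zero, abs_of_pos hT] at h4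
    rw [h3, norm_mul, norm_inv, norm_real, Real.norm_eq_abs, abs_of_pos hT]
    calc T⁻¹ * ‖∫ t in (0 : ℝ)..T, (∑' n, c n * exp (-(I * ω n * t))) * exp (I * ω m * t)‖ ≤ T⁻¹ * (K * T) :=
          mul_le_mul_of_nonneg_left h4 (by positivity)
      _ = K := by field_simp
  -- the limit
  have h3 : Tendsto (fun T : ℝ => ∑' n, c n * (((T : ℂ))⁻¹ * ∫ t in (0 : ℝ)..T, exp (I * ((ω m - ω n : ℝ) : ℂ) * t))) atTop
      (𝓝 (∑' n, if n = m then c m else 0)) := by
    refine tendsto_tsum_of_dominated_convergence hs (fun n => ?_) ?_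
    · split_ifs with hnm
      · subst hnm
        refine Tendsto.congr' ?_ tendsto_const_nhds
        filter_upwards [eventually_gt_atTop 0] with T hT
        have h5 : ((T : ℂ)) ≠ 0 := by exact_mod_cast hT.ne'
        simp [h5]
      · by_cases hc : c n = 0
        · simp only [hc, zero_mul]
          exact tendsto_const_nhds
        · have h5 := (avg_lim (δ := ω m - ω n) (sub_ne_zero.2 (hm n hnm hc).symm)).const_mul (c n)
          simpa using h5
    · filter_upwards [eventually_gt_atTop 0] with T hT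
      intro n
      rw [norm_mul]
      exact mul_le_of_le_one_right (norm_nonneg _) (avg_le hT)
  rw [tsum_ite_eq] at h3
  exact le_of_tendsto h3.norm (by
    filter_upwards [eventually_gt_atTop 0] with T hT
    exact h2 T hT)

end Pool.Agent.H81.WFa
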